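import Pool.Agent.H6.N4D.TA

/-!
# Row FIN of n4d: no function changes its sign along the edges
-/

set_option autoImplicit false

open Finset

namespace Pool.Agent.H91.N4D
open Pool.Agent.H6.N4D

/-- sums of squares over a set from a bound off few points -/
lemma sum_sq_le (S : Par) (E : ℤ → Prop) (u : ℤ → ℂ) (c₂ : ℝ) (hc : 0 ≤ c₂)
    (s : Finset ℤ) (hs : ∀ t ∈ s, t ∈ S.I) (hu : ∀ t, ‖u t‖ ≤ 2)
    (hE : ∀ t ∈ s, c₂ < ‖u t‖ → E t) (hcard : (S.I.card : ℝ) = S.N) :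
    ∑ t ∈ s, ‖u t‖ ^ 2 ≤ c₂ ^ 2 * S.N + 4 * S.cnt E := by
  classical
  have h1 : ∀ t ∈ s, ‖u t‖ ^ 2 ≤ c₂ ^ 2 + (if E t then 4 else 0) := by
    intro t ht
    have h0 := norm_nonneg (u t)
    by_cases h : c₂ < ‖u t‖
    · rw [if_pos (hE t ht h)]
      have := hu t
      nlinarith [sq_nonneg c₂]
    · rw [not_lt] at h
      have : ‖u t‖ ^ 2 ≤ c₂ ^ 2 := pow_le_pow_left₀ h0 h 2
      split_ifs <;> linarith
  calc ∑ t ∈ s, ‖u t‖ ^ 2 ≤ ∑ t ∈ s, (c₂ ^ 2 + (if E t then 4 else 0)) := sum_le_sum h1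
    _ = s.card * c₂ ^ 2 + 4 * ((s.filter E).card : ℝ) := by
        rw [sum_add_distrib, sum_const, nsmul_eq_mul, ← sum_filter, sum_const, nsmul_eq_mul]
        ring
    _ ≤ c₂ ^ 2 * S.N + 4 * S.cnt E := by
        have h2 : (s.card : ℝ) ≤ S.N := by
          rw [← hcard]
          exact_mod_cast card_le_card (fun t ht => hs t ht)
        have h3 : ((s.filter E).card : ℝ) ≤ S.cnt E := by
          unfold Par.cnt
          exact_mod_cast card_le_card (fun t ht => by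
            rw [mem_filter] at ht
            rw [Par.mem_fl]
            exact ⟨hs t ht.1, ht.2⟩)
        have h4 := mul_le_mul_of_nonneg_right h2 (sq_nonneg c₂)
        linarith

/-- half of the points are in the interior -/
lemma card_In_ge (S : Par) (hS : S.Ok) (hL : 1 ≤ S.L) (hh1 : S.h ≤ 1) :
    S.N / 2 ≤ ((In S 1).card : ℝ) := by
  have hK : (1 : ℝ) ≤ S.K := by exact_mod_cast hS.hK
  have hh := hS.hh
  have hI1 := hS.hI1
  set A : ℝ := S.K * S.L / S.h with hA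
  have hAh : A * S.h = S.K * S.L := by rw [hA]; field_simp
  have hA1 : 1 ≤ A := by
    rw [hA, le_div_iff₀ hh]
    nlinarith
  have hAN : 12 * A ≤ S.N := by
    have : 12 * A * S.h ≤ S.N * S.h := by nlinarith
    exact le_of_mul_le_mul_right this hh
  have hsub : Icc (S.a + ⌈A⌉) (S.b - ⌈A⌉) ⊆ In S 1 := by
    intro t ht
    rw [mem_Icc] at ht
    have hc := Int.le_ceil A
    have hc1 : (1 : ℤ) ≤ ⌈A⌉ := by
      rw [Int.one_le_ceil_iff]; linarith
    unfold In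
    rw [mem_filter, Par.mem_I]
    have h1 : (S.a : ℝ) + ⌈A⌉ ≤ t := by exact_mod_cast ht.1
    have h2 : (t : ℝ) ≤ S.b - ⌈A⌉ := by exact_mod_cast ht.2
    refine ⟨⟨by omega, by omega⟩, ?_, ?_⟩
    · rw [one_mul, ← hAh]
      apply mul_le_mul_of_nonneg_right _ hh.le
      linarith
    · rw [one_mul, ← hAh]
      apply mul_le_mul_of_nonneg_right _ hh.le
      linarith
  have hcard := card_le_card hsub
  rw [Int.card_Icc] at hcard
  have h1 : ((S.b - ⌈A⌉ + 1 - (S.a + ⌈A⌉) : ℤ) : ℝ) ≤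
      (((S.b - ⌈A⌉ + 1 - (S.a + ⌈A⌉)).toNat : ℕ) : ℝ) := by
    have := Int.self_le_toNat (S.b - ⌈A⌉ + 1 - (S.a + ⌈A⌉))
    exact_mod_cast this
  have h2 : (((S.b - ⌈A⌉ + 1 - (S.a + ⌈A⌉)).toNat : ℕ) : ℝ) ≤ ((In S 1).card : ℝ) := by
    exact_mod_cast hcard
  push_cast at h1
  have h3 := Int.ceil_lt_add_one A
  have hN : S.N = (S.b : ℝ) - S.a := rfl
  linarith

theorem pf_FIN (hSPM : T_SPM) (hPWM : T_PWM) (hCHI : T_CHI) (hCUT : T_CUT) (hWTS : T_WTS)
    (hSIZ : T_SIZ) : T_FIN := by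
  intro B c X₁ hGap
  obtain ⟨c', X₂, hc', hPW⟩ := hPWM B c X₁ hGap
  have hB2 : 2 ≤ B := hGap.2.1
  obtain ⟨X₃, hW⟩ := hWTS.2.1 B (by omega)
  obtain ⟨X₄, hSZ⟩ := hSIZ
  obtain ⟨X₅, hLL⟩ := LL_large (max 1 (16 / c'))
  have hBr : (0 : ℝ) ≤ B := Nat.cast_nonneg B
  set c₂ : ℝ := min 1 (c' / (4 * (2 * B + 18))) with hc₂
  have hc20 : 0 < c₂ := lt_min one_pos (by positivity)
  have hc21 : c₂ ≤ 1 := min_le_left _ _
  have hc2b : (2 * B + 18) * c₂ ≤ c' / 4 := by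
    have h1 : c₂ ≤ c' / (4 * (2 * B + 18)) := min_le_right _ _
    rw [le_div_iff₀ (by positivity)] at h1
    linarith
  obtain ⟨K₁, hK₁⟩ := exists_nat_ge (16 * B * (B + 1) ^ 2 / c')
  refine ⟨c₂, max B (max 1 K₁), hc20, le_max_left _ _, ?_⟩
  intro K hK
  refine ⟨max (max X₂ X₃) (max X₄ X₅), ?_⟩
  intro S hS hSK hX f hf hsh hed
  have hX2 : X₂ ≤ S.X := (le_max_left _ _).trans ((le_max_left _ _).trans hX)
  have hX3 : X₃ ≤ S.X := (le_max_right _ _).trans ((le_max_left _ _).trans hX)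
  have hX4 : X₄ ≤ S.X := (le_max_left _ _).trans ((le_max_right _ _).trans hX)
  have hX5 : X₅ ≤ S.X := (le_max_right _ _).trans ((le_max_right _ _).trans hX)
  obtain ⟨hL, -, -, hr1, hhr, -, hV2, hV1, -, hlp, -, hN, hcard⟩ := hSZ S hS hX4
  have hLbig : 16 / c' ≤ S.L := (le_max_right _ _).trans (hLL S.X hX5)
  have hh := hS.hh
  have hr := hS.hr0
  have hL0 : 0 < S.L := by linarith
  have hKr : (1 : ℝ) ≤ S.K := by exact_mod_cast hS.hK
  have hKL : 0 < (S.K : ℝ) * S.L := by positivity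
  have hh1 : S.h ≤ 1 := by
    have : S.rho ^ 4 ≤ 1 := pow_le_one₀ hr.le (by linarith)
    linarith
  obtain ⟨hχ1, hχ2, hχ3, -⟩ := hCHI S hS hL0
  set g : ℤ → ℂ := fun t => chi S t * f t with hg
  have hgfin : (Function.support g).Finite := by
    refine (S.I.finite_toSet).subset ?_
    intro t ht
    by_contra h
    apply ht
    rw [hg]
    simp only
    rw [hχ2 t h]
    simp
  -- the lower bound of the energy
  have hen : S.N / 2 ≤ ∑' t : ℤ, ‖g t‖ ^ 2 := by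
    have hsum : Summable fun t : ℤ => ‖g t‖ ^ 2 := by
      apply summable_of_finite_support
      refine hgfin.subset ?_
      intro t ht h
      apply ht
      simp only
      rw [h]
      simp
    calc S.N / 2 ≤ ((In S 1).card : ℝ) := card_In_ge S hS hL hh1
      _ = ∑ t ∈ In S 1, ‖g t‖ ^ 2 := by
          rw [card_eq_sum_ones]
          push_cast
          apply sum_congr rfl
          intro t ht
          rw [hg]
          simp only
          rw [hχ3 t ht, norm_mul, hf t]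
          simp
      _ ≤ _ := hsum.sum_le_tsum _ (fun t _ => by positivity)
  -- the inequality of the quadratic forms
  have hmain := hSPM g hgfin ℕ ℕ (Pr S.P (S.P ^ B)) (Icc 1 S.V) c' (fun p => 1 / (p : ℝ))
    (fun _ => 1 / (S.V : ℝ)) S.l (fun w => (w : ℤ)) (by
      intro ξ
      have h1 := hPW S hS hX2 ξ
      have h2 : ∑ j ∈ Icc 1 S.V, 1 / (S.V : ℝ) *
          (1 - Real.cos (2 * Real.pi * ξ * ((j : ℤ) : ℝ))) =
          1 / (S.V : ℝ) * ∑ w ∈ Icc 1 S.V, (1 - Real.cos (2 * Real.pi * ξ * w)) := by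
        rw [mul_sum]
        apply sum_congr rfl
        intro w _
        push_cast
        rfl
      rw [h2]
      exact h1)
  -- the primes
  have hW' := hW S.X hX3
  set W : ℝ := ∑ p ∈ Pr S.P (S.P ^ B), 1 / (p : ℝ) with hWdef
  have hWB : W ≤ B := hW'
  have hfs : ∀ t s : ℤ, ‖f t + f s‖ ≤ 2 := fun t s =>
    (norm_add_le _ _).trans (by rw [hf, hf]; norm_num)
  have hfd : ∀ t s : ℤ, ‖f t - f s‖ ≤ 2 := fun t s =>
    (norm_sub_le _ _).trans (by rw [hf, hf]; norm_num)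
  have hPpos : 1 ≤ S.P := by
    rw [show S.P = Real.exp S.L from (Real.exp_log (Par.P_pos (S := S)) ▸ by
      rw [Par.log_P])]
    exact Real.one_le_exp hL0.le
  have hp1 : ∀ p ∈ Pr S.P (S.P ^ B), Dp g (S.l p) ≤ 2 * (c₂ ^ 2 * S.N + 4 *
      S.cnt (fun t => t - S.l p ∈ S.I ∧ c₂ < ‖f (t - S.l p) + f t‖)) +
      4 * (((B : ℝ) + 1) / K) ^ 2 * S.N := by
    intro p hp
    rw [mem_Pr (by positivity)] at hp
    obtain ⟨hp0, hpB, hpp⟩ := hp
    have hpos : (0 : ℝ) < p := by exact_mod_cast hpp.pos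
    have h1 := (hCUT S hS hL0 1 f (fun t => (hf t).le) (S.l p)).2
    have h2 : Asp S f (S.l p) ≤ c₂ ^ 2 * S.N + 4 *
        S.cnt (fun t => t - S.l p ∈ S.I ∧ c₂ < ‖f (t - S.l p) + f t‖) := by
      unfold Asp
      apply sum_sq_le S _ (fun t => f (t - S.l p) + f t) c₂ hc20.le _ _ _ _ hcard
      · intro t ht
        rw [mem_filter] at ht
        exact ht.1
      · intro t
        exact hfs _ _
      · intro t ht hct
        rw [mem_filter] at ht
        exact ⟨ht.2, hct⟩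
    have h3 : |((S.l p : ℤ) : ℝ)| * S.h / (S.K * S.L) ≤ ((B : ℝ) + 1) / K := by
      have h4 := hlp p hpp.pos
      have h5 : Real.log p ≤ B * S.L := by
        have h6 := Real.log_le_log hpos hpB
        rw [Real.log_pow, Par.log_P] at h6
        exact h6
      have h7 : 0 ≤ Real.log p := Real.log_natCast_nonneg p
      have h8 : |((S.l p : ℤ) : ℝ)| * S.h ≤ (B + 1) * S.L := by
        rw [abs_le] at h4
        have h9 : |((S.l p : ℤ) : ℝ)| * S.h = |S.h * (S.l p : ℝ)| := by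
          rw [abs_mul, abs_of_pos hh]; ring
        rw [h9, abs_le]
        constructor
        · nlinarith [h4.1]
        · nlinarith [h4.2]
      rw [← hSK, div_le_div_iff₀ hKL (by linarith)]
      nlinarith
    have h10 : (|((S.l p : ℤ) : ℝ)| * S.h / (S.K * S.L)) ^ 2 ≤ (((B : ℝ) + 1) / K) ^ 2 :=
      pow_le_pow_left₀ (by positivity) h3 2
    have h11 : 4 * (1 : ℝ) ^ 2 * (|((S.l p : ℤ) : ℝ)| * S.h / (S.K * S.L)) ^ 2 * S.N ≤
        4 * (((B : ℝ) + 1) / K) ^ 2 * S.N := by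
      apply mul_le_mul_of_nonneg_right _ hN.le
      linarith
    linarith
  have hP : ∑ p ∈ Pr S.P (S.P ^ B), 1 / (p : ℝ) * Dp g (S.l p) ≤
      (2 * c₂ ^ 2 * W + 8 * c₂ + 4 * (((B : ℝ) + 1) / K) ^ 2 * W) * S.N := by
    calc _ ≤ ∑ p ∈ Pr S.P (S.P ^ B), 1 / (p : ℝ) * (2 * (c₂ ^ 2 * S.N + 4 *
        S.cnt (fun t => t - S.l p ∈ S.I ∧ c₂ < ‖f (t - S.l p) + f t‖)) +
        4 * (((B : ℝ) + 1) / K) ^ 2 * S.N) :=
          sum_le_sum fun p hp => mul_le_mul_of_nonneg_left (hp1 p hp) (by positivity)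
      _ = (2 * c₂ ^ 2 * S.N + 4 * (((B : ℝ) + 1) / K) ^ 2 * S.N) * W + 8 *
          ∑ p ∈ Pr S.P (S.P ^ B), 1 / (p : ℝ) *
            S.cnt (fun t => t - S.l p ∈ S.I ∧ c₂ < ‖f (t - S.l p) + f t‖) := by
          rw [hWdef, mul_sum, mul_sum, ← sum_add_distrib]
          apply sum_congr rfl
          intro p _
          ring
      _ ≤ (2 * c₂ ^ 2 * S.N + 4 * (((B : ℝ) + 1) / K) ^ 2 * S.N) * W + 8 * (c₂ * S.N) := by
          linarith
      _ = _ := by ring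
  -- the shifts
  have hs1 : ∀ w ∈ Icc 1 S.V, Dg g (w : ℤ) ≤ (2 * (c₂ ^ 2 + 4 * c₂) + c' / 4) * S.N := by
    intro w hw
    rw [mem_Icc] at hw
    have h1 := (hCUT S hS hL0 1 f (fun t => (hf t).le) (w : ℤ)).1
    have h2 : Asq S f (w : ℤ) ≤ c₂ ^ 2 * S.N + 4 * S.cnt (fun t => t + (-(w : ℤ)) ∈ S.I ∧
        (t + (-(w : ℤ)) + (w : ℤ) ∈ S.I ∧
          c₂ < ‖f (t + (-(w : ℤ)) + (w : ℤ)) - f (t + (-(w : ℤ)))‖)) := by
      unfold Asq
      apply sum_sq_le S _ (fun t => f (t - w) - f t) c₂ hc20.le _ _ _ _ hcard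
      · intro t ht
        rw [mem_filter] at ht
        exact ht.1
      · intro t
        exact hfd _ _
      · intro t ht hct
        rw [mem_filter] at ht
        have e1 : t + (-(w : ℤ)) = t - w := by ring
        have e2 : t - (w : ℤ) + w = t := by ring
        rw [e1, e2]
        refine ⟨ht.2, ht.1, ?_⟩
        rw [norm_sub_rev]
        exact hct
    have h3 := Par.cnt_shift (S := S)
      (fun t => t + (w : ℤ) ∈ S.I ∧ c₂ < ‖f (t + (w : ℤ)) - f t‖) (-(w : ℤ))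
    have h4 := hsh w hw.1 hw.2
    have h5 : 4 * (1 : ℝ) ^ 2 * (|(((w : ℤ)) : ℝ)| * S.h / (S.K * S.L)) ^ 2 ≤ c' / 4 := by
      have h6 : |(((w : ℤ)) : ℝ)| * S.h ≤ 1 := by
        have h7 : |(((w : ℤ)) : ℝ)| = (w : ℝ) := by
          push_cast
          exact abs_of_nonneg (Nat.cast_nonneg w)
        rw [h7]
        have h8 : (w : ℝ) ≤ S.V := by exact_mod_cast hw.2
        have h9 : S.rho ^ 2 ≤ 1 := pow_le_one₀ hr.le (by linarith)
        nlinarith
      have h7 : |(((w : ℤ)) : ℝ)| * S.h / (S.K * S.L) ≤ 1 / S.L := by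
        rw [div_le_div_iff₀ hKL hL0]
        nlinarith
      have h8 : (|(((w : ℤ)) : ℝ)| * S.h / (S.K * S.L)) ^ 2 ≤ (1 / S.L) ^ 2 :=
        pow_le_pow_left₀ (by positivity) h7 2
      have h9 : (1 / S.L) ^ 2 ≤ 1 / S.L := by
        have : 1 / S.L ≤ 1 := by rw [div_le_one hL0]; exact hL
        have h0 : 0 < 1 / S.L := by positivity
        nlinarith
      have h10 : 1 / S.L ≤ c' / 16 := by
        rw [div_le_div_iff₀ hL0 (by norm_num)]
        rw [div_le_iff₀ hc'] at hLbig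
        linarith
      linarith
    have h6 : 4 * (1 : ℝ) ^ 2 * (|(((w : ℤ)) : ℝ)| * S.h / (S.K * S.L)) ^ 2 * S.N ≤
        c' / 4 * S.N := mul_le_mul_of_nonneg_right h5 hN.le
    have h7 : Asq S f (w : ℤ) ≤ c₂ ^ 2 * S.N + 4 * (c₂ * S.N) := by
      linarith [h3.trans h4]
    have h8 : Dg g (w : ℤ) ≤ 2 * Asq S f (w : ℤ) + c' / 4 * S.N := by
      refine h1.trans ?_
      linarith
    calc Dg g (w : ℤ) ≤ _ := h8
      _ ≤ 2 * (c₂ ^ 2 * S.N + 4 * (c₂ * S.N)) + c' / 4 * S.N := by linarith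
      _ = _ := by ring
  have hV0 : (0 : ℝ) < S.V := by exact_mod_cast hV1
  have hSh : ∑ w ∈ Icc 1 S.V, 1 / (S.V : ℝ) * Dg g (w : ℤ) ≤
      (2 * (c₂ ^ 2 + 4 * c₂) + c' / 4) * S.N := by
    calc _ ≤ ∑ w ∈ Icc 1 S.V, 1 / (S.V : ℝ) * ((2 * (c₂ ^ 2 + 4 * c₂) + c' / 4) * S.N) :=
          sum_le_sum fun w hw => mul_le_mul_of_nonneg_left (hs1 w hw) (by positivity)
      _ = _ := by
          rw [sum_const, nsmul_eq_mul, Nat.card_Icc]
          have : ((S.V + 1 - 1 : ℕ) : ℝ) = S.V := by simp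
          rw [this]
          field_simp
  -- the constants
  have hKb : 4 * (((B : ℝ) + 1) / K) ^ 2 * W ≤ c' / 4 := by
    have hK1 : (1 : ℝ) ≤ K := by
      have : 1 ≤ K := (le_max_left _ _).trans ((le_max_right _ _).trans hK)
      exact_mod_cast this
    have hK2 : 16 * B * (B + 1) ^ 2 / c' ≤ (K : ℝ) := by
      have : K₁ ≤ K := (le_max_right _ _).trans ((le_max_right _ _).trans hK)
      exact hK₁.trans (by exact_mod_cast this)
    rw [div_le_iff₀ hc'] at hK2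
    have hK0 : (0 : ℝ) < K := by linarith
    have h1 : 4 * (((B : ℝ) + 1) / K) ^ 2 * W ≤ 4 * (((B : ℝ) + 1) / K) ^ 2 * B :=
      mul_le_mul_of_nonneg_left hWB (by positivity)
    refine h1.trans ?_
    rw [div_pow, mul_div_assoc', div_mul_eq_mul_div, div_le_div_iff₀ (by positivity) (by norm_num)]
    nlinarith [mul_le_mul_of_nonneg_left hK1 (by positivity : 0 ≤ c' * (K : ℝ))]
  have hc2sq : c₂ ^ 2 ≤ c₂ := by nlinarith
  have hWn : 0 ≤ W := sum_nonneg fun p _ => by positivity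
  have hcW : c₂ ^ 2 * W ≤ c₂ * B := mul_le_mul hc2sq hWB hWn hc20.le
  have hfinal : 2 * c' * (S.N / 2) ≤ (3 / 4 * c') * S.N := by
    calc 2 * c' * (S.N / 2) ≤ 2 * c' * ∑' t : ℤ, ‖g t‖ ^ 2 :=
          mul_le_mul_of_nonneg_left hen (by positivity)
      _ ≤ _ := hmain
      _ ≤ (2 * c₂ ^ 2 * W + 8 * c₂ + 4 * (((B : ℝ) + 1) / K) ^ 2 * W) * S.N +
          (2 * (c₂ ^ 2 + 4 * c₂) + c' / 4) * S.N := add_le_add hP hSh
      _ = (2 * (c₂ ^ 2 * W) + 8 * c₂ + 4 * (((B : ℝ) + 1) / K) ^ 2 * W +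
          (2 * (c₂ ^ 2 + 4 * c₂) + c' / 4)) * S.N := by ring
      _ ≤ (3 / 4 * c') * S.N := by
          apply mul_le_mul_of_nonneg_right _ hN.le
          nlinarith
  nlinarith

end Pool.Agent.H91.N4D
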